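import Pool.Agent.Lib.MP_f6404a_co.StrongB

/-!
# MP_f6404a_co: large spheres without outward neighbours in vertex-transitive graphs

Babai's question has a positive answer, and its constants can be pushed to their natural limits:
`1/2`, `99%` and `1.9` may be replaced by any `α < 1`, `β < 1` and `ρ < 2`, and `ρ > 2` is impossible
as soon as `α ≥ 1/2`.
-/

set_option autoImplicit false

open Filter

namespace Pool.Agent.Results.MP_f6404a_co.AlmostAllOnOneSphere

/-- The automorphism group of `G` acts transitively on the vertices. -/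
def VertexTransitive {V : Type} (G : SimpleGraph V) : Prop :=
  ∀ u v : V, ∃ φ : G ≃g G, φ u = v

/-- The sphere `S_d(v₀)`: the vertices at distance exactly `d` from `v₀`. -/
def sphere {V : Type} (G : SimpleGraph V) (v₀ : V) (d : ℕ) : Set V :=
  {u | G.dist u v₀ = d}

/-- The vertex `u` (of `S_d(v₀)`) has an outward neighbour: a neighbour in `S_{d+1}(v₀)`. -/
def HasOutward {V : Type} (G : SimpleGraph V) (v₀ : V) (d : ℕ) (u : V) : Prop :=
  ∃ w, G.Adj u w ∧ w ∈ sphere G v₀ (d + 1)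

/-- Babai's question with the constants `α` (for `1/2`), `β` (for `99%`) and `ρ` (for `1.9`). -/
def Babai (α β ρ : ℝ) : Prop :=
  ∃ (V : ℕ → Type) (G : ∀ n, SimpleGraph (V n)) (Δ : ℕ) (d : ℕ → ℕ),
    (∀ n, Finite (V n) ∧ (G n).Connected ∧ VertexTransitive (G n) ∧
      ∀ v, ((G n).neighborSet v).ncard ≤ Δ) ∧
    Tendsto (fun n => Nat.card (V n)) atTop atTop ∧
    ∀ n, 0 < d n ∧ ∀ v₀ : V n,
      α * (Nat.card (V n) : ℝ) ≤ ((sphere (G n) v₀ (d n)).ncard : ℝ) ∧
      β * ((sphere (G n) v₀ (d n)).ncard : ℝ) ≤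
        ({u | u ∈ sphere (G n) v₀ (d n) ∧ ¬ HasOutward (G n) v₀ (d n) u}.ncard : ℝ) ∧
      ρ * (d n : ℝ) ≤ ((G n).diam : ℝ)

theorem iso_dist_le {V : Type} {G : SimpleGraph V} (hG : G.Connected) (φ : G ≃g G) (a b : V) :
    G.dist (φ a) (φ b) ≤ G.dist a b := by
  obtain ⟨q, hq⟩ := hG.exists_walk_length_eq_dist a b
  have h1 := SimpleGraph.dist_le (q.map φ.toHom)
  rw [SimpleGraph.Walk.length_map, hq] at h1
  exact h1

theorem iso_dist {V : Type} {G : SimpleGraph V} (hG : G.Connected) (φ : G ≃g G) (a b : V) :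
    G.dist (φ a) (φ b) = G.dist a b := by
  apply le_antisymm (iso_dist_le hG φ a b)
  have h1 := iso_dist_le hG φ.symm (φ a) (φ b)
  rwa [RelIso.symm_apply_apply, RelIso.symm_apply_apply] at h1

theorem babai_of_lt (α β ρ : ℝ) (hα : α < 1) (hβ : β < 1) (hρ : ρ < 2) : Babai α β ρ := by
  obtain ⟨ε, hε, hε1, h1, h2, h3⟩ : ∃ ε : ℝ, 0 < ε ∧ ε ≤ 1 ∧ α ≤ 1 - ε ∧ β ≤ 1 - ε ∧ ρ ≤ 2 - ε := by
    refine ⟨min (min (1 - α) (1 - β)) (min (2 - ρ) 1), ?_, ?_, ?_, ?_, ?_⟩
    · refine lt_min (lt_min ?_ ?_) (lt_min ?_ one_pos) <;> linarith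
    · exact (min_le_right _ _).trans (min_le_right _ _)
    · have := (min_le_left (min (1 - α) (1 - β)) (min (2 - ρ) 1)).trans (min_le_left _ _)
      linarith
    · have := (min_le_left (min (1 - α) (1 - β)) (min (2 - ρ) 1)).trans (min_le_right _ _)
      linarith
    · have := (min_le_right (min (1 - α) (1 - β)) (min (2 - ρ) 1)).trans (min_le_left _ _)
      linarith
  obtain ⟨Δ, hΔ⟩ := Pool.Agent.MP_f6404a_co.exists_great ε hε hε1
  choose V G d o hfin hcard hgreat using hΔ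
  refine ⟨V, G, Δ, d, ?_, ?_, ?_⟩
  · intro n
    obtain ⟨-, g2, g3, g4, -, -⟩ := hgreat n
    exact ⟨hfin n, g2, g3, g4⟩
  · exact tendsto_atTop_mono hcard tendsto_id
  · intro n
    obtain ⟨g1, g2, g3, -, g5, g6⟩ := hgreat n
    have := hfin n
    refine ⟨g1, fun v₀ => ?_⟩
    have key : (1 - ε) * (Nat.card (V n) : ℝ) ≤
        ({u | u ∈ sphere (G n) v₀ (d n) ∧ ¬ HasOutward (G n) v₀ (d n) u}.ncard : ℝ) := by
      refine g5.trans ?_
      obtain ⟨φ, hφ⟩ := g3 (o n) v₀
      have e1 : (fun u => φ u) '' {u : V n | (G n).dist (o n) u = d n ∧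
          ∀ w : V n, (G n).Adj u w → (G n).dist (o n) w ≠ d n + 1} ⊆
          {u | u ∈ sphere (G n) v₀ (d n) ∧ ¬ HasOutward (G n) v₀ (d n) u} := by
        rintro _ ⟨u, ⟨hu1, hu2⟩, rfl⟩
        constructor
        · change (G n).dist (φ u) v₀ = d n
          rw [← hφ, iso_dist g2, SimpleGraph.dist_comm]
          exact hu1
        · rintro ⟨w, hw1, hw2⟩
          have hw3 : (G n).dist w v₀ = d n + 1 := hw2
          apply hu2 (φ.symm w)
          · rw [← φ.map_adj_iff, RelIso.apply_symm_apply]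
            exact hw1
          · rw [SimpleGraph.dist_comm, ← iso_dist g2 φ, RelIso.apply_symm_apply, hφ]
            exact hw3
      have e2 := Set.ncard_le_ncard e1 (Set.toFinite _)
      rw [Set.ncard_image_of_injective _ φ.injective] at e2
      exact_mod_cast e2
    have hle1 : ({u | u ∈ sphere (G n) v₀ (d n) ∧ ¬ HasOutward (G n) v₀ (d n) u}.ncard : ℝ) ≤
        ((sphere (G n) v₀ (d n)).ncard : ℝ) := by
      have hsub : {u | u ∈ sphere (G n) v₀ (d n) ∧ ¬ HasOutward (G n) v₀ (d n) u} ⊆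
          sphere (G n) v₀ (d n) := fun u hu => hu.1
      exact_mod_cast Set.ncard_le_ncard hsub (Set.toFinite _)
    have hle2 : ((sphere (G n) v₀ (d n)).ncard : ℝ) ≤ (Nat.card (V n) : ℝ) := by
      rw [← Set.ncard_univ]
      exact_mod_cast Set.ncard_le_ncard (Set.subset_univ _) (Set.toFinite _)
    have hc0 : (0 : ℝ) ≤ (Nat.card (V n) : ℝ) := Nat.cast_nonneg _
    have hs0 : (0 : ℝ) ≤ ((sphere (G n) v₀ (d n)).ncard : ℝ) := Nat.cast_nonneg _
    have hd0 : (0 : ℝ) ≤ (d n : ℝ) := Nat.cast_nonneg _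
    refine ⟨?_, ?_, ?_⟩
    · exact (mul_le_mul_of_nonneg_right h1 hc0).trans (key.trans hle1)
    · refine (mul_le_mul_of_nonneg_right h2 hs0).trans ?_
      exact (mul_le_mul_of_nonneg_left hle2 (by linarith)).trans key
    · exact (mul_le_mul_of_nonneg_right h3 hd0).trans g6

theorem self_notMem_sphere {V : Type} (G : SimpleGraph V) (v : V) (d : ℕ) (hd : 0 < d) :
    v ∉ sphere G v d := by
  intro hv
  have hv' : G.dist v v = d := hv
  rw [SimpleGraph.dist_self] at hv'
  omega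

/-- `α ≥ 1` is impossible: `v₀` itself is not on the sphere. -/
theorem alpha_lt (α β ρ : ℝ) (h : Babai α β ρ) : α < 1 := by
  obtain ⟨V, G, Δ, d, h1, -, h3⟩ := h
  obtain ⟨hfin, hconn, -, -⟩ := h1 0
  obtain ⟨hd, hall⟩ := h3 0
  obtain ⟨v⟩ : Nonempty (V 0) := hconn.nonempty
  by_contra hα
  have e1 := (hall v).1
  have e2 : (sphere (G 0) v (d 0)).ncard + 1 ≤ Nat.card (V 0) := by
    rw [← Set.ncard_insert_of_notMem (self_notMem_sphere (G 0) v (d 0) hd) (Set.toFinite _),
      ← Set.ncard_univ]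
    exact Set.ncard_le_ncard (Set.subset_univ _) (Set.toFinite _)
  have e3 : ((sphere (G 0) v (d 0)).ncard : ℝ) + 1 ≤ (Nat.card (V 0) : ℝ) := by exact_mod_cast e2
  have e4 : (0 : ℝ) ≤ (Nat.card (V 0) : ℝ) := Nat.cast_nonneg _
  nlinarith

/-- `β ≥ 1` is impossible when `ρ > 1`: then no vertex has an outward neighbour. -/
theorem beta_lt (α β ρ : ℝ) (h : Babai α β ρ) (hρ : 1 < ρ) : β < 1 := by
  obtain ⟨V, G, Δ, d, h1, -, h3⟩ := h
  obtain ⟨hfin, hconn, -, -⟩ := h1 0
  obtain ⟨hd, hall⟩ := h3 0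
  have : Nonempty (V 0) := hconn.nonempty
  by_contra hβ
  have key : ∀ v u : V 0, (G 0).dist u v ≤ d 0 := by
    intro v
    obtain ⟨-, e1, -⟩ := hall v
    have hsub : {u | u ∈ sphere (G 0) v (d 0) ∧ ¬ HasOutward (G 0) v (d 0) u} ⊆
        sphere (G 0) v (d 0) := fun u hu => hu.1
    have e2 : (sphere (G 0) v (d 0)).ncard ≤
        {u | u ∈ sphere (G 0) v (d 0) ∧ ¬ HasOutward (G 0) v (d 0) u}.ncard := by
      have e3 : (0 : ℝ) ≤ ((sphere (G 0) v (d 0)).ncard : ℝ) := Nat.cast_nonneg _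
      have e4 : ((sphere (G 0) v (d 0)).ncard : ℝ) ≤
          ({u | u ∈ sphere (G 0) v (d 0) ∧ ¬ HasOutward (G 0) v (d 0) u}.ncard : ℝ) := by
        nlinarith
      exact_mod_cast e4
    have e5 := Set.eq_of_subset_of_ncard_le hsub e2 (Set.toFinite _)
    have walk : ∀ (a b : V 0) (q : (G 0).Walk a b), (G 0).dist a v ≤ d 0 →
        (G 0).dist b v ≤ d 0 := by
      intro a b q
      induction q with
      | nil => exact fun h => h
      | @cons a c b hac q ih =>
        intro ha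
        apply ih
        by_contra hc
        have h4 : (G 0).dist c v ≤ (G 0).dist a v + 1 := by
          have h5 := hconn.dist_triangle (u := c) (v := a) (w := v)
          rw [SimpleGraph.dist_eq_one_iff_adj.2 hac.symm] at h5
          omega
        have h6 : a ∈ sphere (G 0) v (d 0) := by
          change (G 0).dist a v = d 0
          omega
        rw [← e5] at h6
        apply h6.2
        refine ⟨c, hac, ?_⟩
        change (G 0).dist c v = d 0 + 1
        omega
    intro u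
    obtain ⟨q⟩ := hconn v u
    apply walk v u q
    rw [SimpleGraph.dist_self]
    omega
  obtain ⟨u, v, huv⟩ := SimpleGraph.exists_dist_eq_diam (G := G 0)
  have h4 := key v u
  rw [huv] at h4
  have h5 := (hall u).2.2
  have h6 : ((G 0).diam : ℝ) ≤ (d 0 : ℝ) := by exact_mod_cast h4
  have h7 : (0 : ℝ) < d 0 := by exact_mod_cast hd
  nlinarith

/-- `ρ > 2` is impossible when `α ≥ 1/2`: two balls of radius `d` intersect. -/
theorem rho_le (α β ρ : ℝ) (h : Babai α β ρ) (hα : 1 / 2 ≤ α) : ρ ≤ 2 := by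
  obtain ⟨V, G, Δ, d, h1, -, h3⟩ := h
  obtain ⟨hfin, hconn, -, -⟩ := h1 0
  obtain ⟨hd, hall⟩ := h3 0
  have : Nonempty (V 0) := hconn.nonempty
  by_contra hρ
  have big : ∀ v : V 0, Nat.card (V 0) + 2 ≤ 2 * {u | (G 0).dist u v ≤ d 0}.ncard := by
    intro v
    have e1 := (hall v).1
    have e2 : (sphere (G 0) v (d 0)).ncard + 1 ≤ {u | (G 0).dist u v ≤ d 0}.ncard := by
      rw [← Set.ncard_insert_of_notMem (self_notMem_sphere (G 0) v (d 0) hd) (Set.toFinite _)]
      apply Set.ncard_le_ncard _ (Set.toFinite _)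
      intro u hu
      rcases hu with rfl | hu
      · change (G 0).dist u u ≤ d 0
        rw [SimpleGraph.dist_self]
        omega
      · exact le_of_eq hu
    have e3 : (Nat.card (V 0) : ℝ) ≤ 2 * ((sphere (G 0) v (d 0)).ncard : ℝ) := by
      have : (0 : ℝ) ≤ (Nat.card (V 0) : ℝ) := Nat.cast_nonneg _
      nlinarith
    have e4 : Nat.card (V 0) ≤ 2 * (sphere (G 0) v (d 0)).ncard := by exact_mod_cast e3
    omega
  have hdist : ∀ u v : V 0, (G 0).dist u v ≤ 2 * d 0 := by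
    intro u v
    by_contra hcon
    have hdisj : Disjoint {w | (G 0).dist w u ≤ d 0} {w | (G 0).dist w v ≤ d 0} := by
      rw [Set.disjoint_left]
      intro w hw1 hw2
      have hw1' : (G 0).dist w u ≤ d 0 := hw1
      have hw2' : (G 0).dist w v ≤ d 0 := hw2
      have h4 := hconn.dist_triangle (u := u) (v := w) (w := v)
      rw [SimpleGraph.dist_comm (u := u) (v := w)] at h4
      omega
    have h4 := Set.ncard_union_eq hdisj (Set.toFinite _) (Set.toFinite _)
    have h5 := Set.ncard_le_ncard (Set.subset_univ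
      ({w | (G 0).dist w u ≤ d 0} ∪ {w | (G 0).dist w v ≤ d 0})) (Set.toFinite _)
    rw [Set.ncard_univ] at h5
    have h6 := big u
    have h7 := big v
    omega
  obtain ⟨u, v, huv⟩ := SimpleGraph.exists_dist_eq_diam (G := G 0)
  have h4 := hdist u v
  rw [huv] at h4
  have h5 := (hall u).2.2
  have h6 : ((G 0).diam : ℝ) ≤ 2 * (d 0 : ℝ) := by exact_mod_cast h4
  have h7 : (0 : ℝ) < d 0 := by exact_mod_cast hd
  nlinarith

/-- **Babai's question**: the answer is yes; every `α < 1`, `β < 1`, `ρ < 2` can be reached, and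
these bounds are necessary (`ρ ≤ 2` for `α ≥ 1/2`, `β < 1` for `ρ > 1`). -/
theorem result :
    Babai (1 / 2) (99 / 100) (19 / 10) ∧
    (∀ α β ρ : ℝ, α < 1 → β < 1 → ρ < 2 → Babai α β ρ) ∧
    (∀ α β ρ : ℝ, Babai α β ρ → α < 1 ∧ (1 < ρ → β < 1) ∧ (1 / 2 ≤ α → ρ ≤ 2)) :=
  ⟨babai_of_lt _ _ _ (by norm_num) (by norm_num) (by norm_num), babai_of_lt,
    fun α β ρ h => ⟨alpha_lt α β ρ h, beta_lt α β ρ h, rho_le α β ρ h⟩⟩

end Pool.Agent.Results.MP_f6404a_co.AlmostAllOnOneSphere
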